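import Pool.Agent.Helper66_D2.Stmts
import Pool.Agent.Helper94_PP.Bridge
import Mathlib.RingTheory.Idempotents

/-!
# Squad PP, part D2, LF1: lifting the corner
-/

open scoped BigOperators

set_option linter.unusedSectionVars false

noncomputable section

namespace Pool.Agent.PP.CD2.H51

open Pool.Agent.Helper51_AWC Pool.Agent.Helper79_WRA Pool.Agent.PP Finset

/-! ## 1. Rings -/

section ring

variable {F A B : Type} [Field F] [Ring A] [Algebra F A] [Ring B] [Algebra F B]

theorem zpow_comm {z : A} (hz : ∀ a, z * a = a * z) (n : ℕ) (a : A) : z ^ n * a = a * z ^ n := by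
  induction n with
  | zero => rw [pow_zero, one_mul, mul_one]
  | succ n ih => rw [pow_succ, mul_assoc, hz, ← mul_assoc, ih, mul_assoc]

theorem corner_pow {i v : A} (hii : i * i = i) (hiv : i * v = v * i) (s s' : ℕ) :
    (v ^ s * i) * (v ^ s' * i) = v ^ (s + s') * i := by
  have h : i * v ^ s' = v ^ s' * i := Commute.pow_right hiv s'
  rw [mul_assoc (v ^ s), ← mul_assoc i, h, mul_assoc (v ^ s'), hii, ← mul_assoc, ← pow_add]

theorem comm2 {z : A} (hz : ∀ a, z * a = a * z) (r r' : ℕ) {x y : A} :
    (z ^ r * x) * (z ^ r' * y) = z ^ (r + r') * (x * y) := by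
  rw [mul_assoc (z ^ r) x, ← mul_assoc x, ← zpow_comm hz r' x, mul_assoc (z ^ r') x y,
    ← mul_assoc (z ^ r), ← pow_add]

/-- a right inverse of `e - z c` in the corner of `e` -/
theorem unit_corner {z : A} (hz : ∀ a, z * a = a * z) {ℓ : ℕ} (hzl : z ^ ℓ = 0) {e : A}
    (he : e * e = e) (hec : ∀ a, e * a = a * e) (c : A) :
    ∃ t : A, (e - z * c) * t = e := by
  refine ⟨∑ r ∈ range ℓ, (z * c) ^ r * e, ?_⟩
  have h1 : ∀ r : ℕ, (e - z * c) * ((z * c) ^ r * e) = (z * c) ^ r * e - (z * c) ^ (r + 1) * e := by
    intro r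
    rw [sub_mul, ← mul_assoc, hec, mul_assoc, he, ← mul_assoc, ← pow_succ']
  rw [mul_sum, Finset.sum_congr rfl (fun r _ => h1 r), sum_range_sub']
  have h2 : (z * c) ^ ℓ = 0 := by
    have : Commute z c := hz c
    rw [this.mul_pow, hzl, zero_mul]
  rw [pow_zero, one_mul, h2, zero_mul, sub_zero]

theorem core (π : A →+* B) (hπF : ∀ (α : F) (a : A), π (α • a) = α • π a)
    (hπ : Function.Surjective π) {z : A} (hz : ∀ a, z * a = a * z) {ℓ : ℕ} (hzl : z ^ ℓ = 0)
    (hker : ∀ a, π a = 0 → ∃ c, a = z * c) {e : A} (he : e * e = e)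
    (hec : ∀ a, e * a = a * e) {w i' : B} {q : ℕ} (hii : i' * i' = i') (hei : π e * i' = i')
    (hw : ∀ b, w * b = b * w)
    (hloc : ∀ b, ∃ α : ℕ → F, i' * (b * i') = ∑ s ∈ range q, α s • (w ^ s * i'))
    (hfull : ∃ (m : ℕ) (x y : Fin m → B), ∑ k, x k * (i' * y k) = π e) :
    ∃ i : A, i * i = i ∧ e * i = i ∧
      (∃ (m : ℕ) (x y : Fin m → A), ∑ k, x k * (i * y k) = e) ∧
      (∀ a c, i * a = a → a * i = a → i * c = c → c * i = c → a * c = c * a) ∧
      ∃ t : Fin ℓ × Fin q → A, ∀ a, i * a = a → a * i = a → a ∈ Submodule.span F (Set.range t) := by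
  have hnil : ∀ x ∈ RingHom.ker π, IsNilpotent x := by
    intro x hx
    obtain ⟨c, rfl⟩ := hker x hx
    have : Commute z c := hz c
    exact ⟨ℓ, by rw [this.mul_pow, hzl, zero_mul]⟩
  obtain ⟨i₀, h0, h1⟩ := exists_isIdempotentElem_eq_of_ker_isNilpotent π hnil i' (hπ i') hii
  have h0' : i₀ * i₀ = i₀ := h0
  have hi2 : (e * i₀) * (e * i₀) = e * i₀ := by
    rw [mul_assoc, hec i₀, ← mul_assoc i₀, h0', ← hec i₀, ← mul_assoc, he]
  have hi3 : e * (e * i₀) = e * i₀ := by rw [← mul_assoc, he]
  have hi4 : π (e * i₀) = i' := by rw [map_mul, h1, hei]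
  generalize e * i₀ = i at hi2 hi3 hi4
  refine ⟨i, hi2, hi3, ?_, ?_⟩
  · obtain ⟨m, x, y, hxy⟩ := hfull
    choose X hX using fun k => hπ (x k)
    choose Y hY using fun k => hπ (y k)
    have e1 : π (e - ∑ k, X k * (i * Y k)) = 0 := by
      rw [map_sub, map_sum, ← hxy, sub_eq_zero]
      apply Finset.sum_congr rfl
      intro k _
      rw [map_mul, map_mul, hX, hY, hi4]
    obtain ⟨c, hc⟩ := hker _ e1
    have e2 : ∑ k, X k * (i * Y k) = e - z * c := by rw [← hc, sub_sub_cancel]
    have e3 : e * (z * c) = z * c := by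
      rw [← hc, mul_sub, he, mul_sum]
      congr 1
      apply Finset.sum_congr rfl
      intro k _
      rw [← mul_assoc, hec, mul_assoc, ← mul_assoc e, hi3]
    obtain ⟨t, ht⟩ := unit_corner hz hzl he hec c
    refine ⟨m, X, fun k => Y k * t, ?_⟩
    rw [← ht, ← e2, sum_mul]
    apply Finset.sum_congr rfl
    intro k _
    rw [mul_assoc, mul_assoc]
  · obtain ⟨w₀, hw₀⟩ := hπ w
    have key : ∀ n : ℕ, ∀ a : A, i * a = a → a * i = a → ∃ (β : ℕ → ℕ → F) (c : A),
        i * c = c ∧ c * i = c ∧
        a = ∑ r ∈ range n, ∑ s ∈ range q, β r s • (z ^ r * ((i * w₀ * i) ^ s * i)) + z ^ n * c := by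
      intro n
      induction n with
      | zero =>
        intro a h2 h3
        exact ⟨fun _ _ => 0, a, h2, h3, by rw [range_zero, sum_empty, pow_zero, one_mul, zero_add]⟩
      | succ n ih =>
        intro a h2 h3
        obtain ⟨β, c, h4, h5, h6⟩ := ih a h2 h3
        obtain ⟨α, hα⟩ := hloc (π c)
        have h7 : ∀ s : ℕ, π ((i * w₀ * i) ^ s * i) = w ^ s * i' := by
          intro s
          induction s with
          | zero => rw [pow_zero, one_mul, hi4, pow_zero, one_mul]
          | succ s ihs =>
            have a1 : i' * w * i' = w * i' := by rw [← hw i', mul_assoc, hii]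
            have a2 : i' * (w ^ s * i') = w ^ s * i' := by
              rw [← mul_assoc, ← zpow_comm hw s i', mul_assoc, hii]
            rw [pow_succ', mul_assoc, map_mul, ihs, map_mul, map_mul, hi4, hw₀, a1, mul_assoc, a2,
              ← mul_assoc, ← pow_succ']
        have h8 : i * (c - ∑ s ∈ range q, α s • ((i * w₀ * i) ^ s * i)) =
            c - ∑ s ∈ range q, α s • ((i * w₀ * i) ^ s * i) := by
          rw [mul_sub, h4, mul_sum]
          congr 1
          apply Finset.sum_congr rfl
          intro s _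
          rw [mul_smul_comm]
          congr 1
          cases s with
          | zero => rw [pow_zero, one_mul, hi2]
          | succ s => rw [pow_succ', ← mul_assoc, ← mul_assoc, ← mul_assoc, ← mul_assoc, hi2]
        have h9 : (c - ∑ s ∈ range q, α s • ((i * w₀ * i) ^ s * i)) * i =
            c - ∑ s ∈ range q, α s • ((i * w₀ * i) ^ s * i) := by
          rw [sub_mul, h5, sum_mul]
          congr 1
          apply Finset.sum_congr rfl
          intro s _
          rw [smul_mul_assoc, mul_assoc, hi2]
        have h10 : π (c - ∑ s ∈ range q, α s • ((i * w₀ * i) ^ s * i)) = 0 := by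
          rw [map_sub, map_sum, sub_eq_zero]
          have : π c = i' * (π c * i') := by
            rw [← hi4, ← map_mul, ← map_mul, h5, h4]
          rw [this, hα]
          apply Finset.sum_congr rfl
          intro s _
          rw [hπF, h7]
        obtain ⟨d, hd⟩ := hker _ h10
        refine ⟨fun r s => if r = n then α s else β r s, i * (d * i), ?_, ?_, ?_⟩
        · rw [← mul_assoc, hi2]
        · rw [mul_assoc, mul_assoc, hi2]
        · have h11 : z * (i * (d * i)) = z * d := by
            rw [← mul_assoc, hz i, mul_assoc, ← mul_assoc z, ← hd, h9, h8]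
          have h12 : c = ∑ s ∈ range q, α s • ((i * w₀ * i) ^ s * i) + z * (i * (d * i)) := by
            rw [h11, ← hd, add_sub_cancel]
          rw [sum_range_succ]
          have h13 : ∑ r ∈ range n, ∑ s ∈ range q, (if r = n then α s else β r s) •
              (z ^ r * ((i * w₀ * i) ^ s * i)) =
              ∑ r ∈ range n, ∑ s ∈ range q, β r s • (z ^ r * ((i * w₀ * i) ^ s * i)) := by
            apply Finset.sum_congr rfl
            intro r hr
            apply Finset.sum_congr rfl
            intro s _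
            rw [if_neg (ne_of_lt (mem_range.1 hr))]
          have h14 : ∑ s ∈ range q, (if n = n then α s else β n s) •
              (z ^ n * ((i * w₀ * i) ^ s * i)) =
              z ^ n * ∑ s ∈ range q, α s • ((i * w₀ * i) ^ s * i) := by
            rw [mul_sum]
            apply Finset.sum_congr rfl
            intro s _
            rw [if_pos rfl, mul_smul_comm]
          rw [h13, h14, pow_succ, mul_assoc (z ^ n) z, add_assoc, ← mul_add, ← h12]
          exact h6
    have span : ∀ a : A, i * a = a → a * i = a → ∃ β : ℕ → ℕ → F,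
        a = ∑ r ∈ range ℓ, ∑ s ∈ range q, β r s • (z ^ r * ((i * w₀ * i) ^ s * i)) := by
      intro a h2 h3
      obtain ⟨β, c, -, -, h⟩ := key ℓ a h2 h3
      refine ⟨β, ?_⟩
      rw [hzl, zero_mul, add_zero] at h
      exact h
    have hcom : ∀ s s' : ℕ, ((i * w₀ * i) ^ s * i) * ((i * w₀ * i) ^ s' * i) =
        ((i * w₀ * i) ^ s' * i) * ((i * w₀ * i) ^ s * i) := by
      have hc1 : i * (i * w₀ * i) = (i * w₀ * i) * i := by
        rw [← mul_assoc, ← mul_assoc, hi2, mul_assoc (i * w₀), hi2]
      intro s s'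
      rw [corner_pow hi2 hc1, corner_pow hi2 hc1, add_comm]
    refine ⟨?_, ?_⟩
    · intro a c h2 h3 h4 h5
      obtain ⟨β, hβ⟩ := span a h2 h3
      obtain ⟨γ, hγ⟩ := span c h4 h5
      have hc2 : Commute a c := by
        rw [hβ, hγ]
        apply Commute.sum_left
        intro r _
        apply Commute.sum_left
        intro s _
        apply Commute.sum_right
        intro r' _
        apply Commute.sum_right
        intro s' _
        apply Commute.smul_left
        apply Commute.smul_right
        change _ * _ = _ * _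
        rw [comm2 hz, comm2 hz, hcom, add_comm]
      exact hc2
    · refine ⟨fun u => z ^ (u.1 : ℕ) * ((i * w₀ * i) ^ (u.2 : ℕ) * i), ?_⟩
      intro a h2 h3
      obtain ⟨β, hβ⟩ := span a h2 h3
      rw [hβ]
      apply Submodule.sum_mem
      intro r hr
      apply Submodule.sum_mem
      intro s hs
      apply Submodule.smul_mem
      exact Submodule.subset_span ⟨(⟨r, mem_range.1 hr⟩, ⟨s, mem_range.1 hs⟩), rfl⟩

end ring

/-! ## 2. The push -/

section push

variable {F G H : Type} [Field F] [Group G] [Finite G] [Group H] [Finite H]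

theorem ma_one : (ma (dl F (1 : G)) : MonoidAlgebra F G) = 1 := by
  rw [ma_dl]; rfl

theorem push_dl (p : G →* H) (x : G) : H75.push p (dl F x) = dl F (p x) := by
  classical
  have := Fintype.ofFinite G
  funext y
  rw [H75.push_eq, Finset.sum_eq_single x]
  · rw [dl, dl, if_pos rfl]
    by_cases h : p x = y
    · rw [if_pos h, if_pos h.symm]
    · rw [if_neg h, if_neg (fun h' => h h'.symm)]
  · intro b _ hb
    rw [dl, if_neg hb, ite_self]
  · intro h
    exact absurd (Finset.mem_univ _) h

theorem push_add (p : G →* H) (a b : G → F) :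
    H75.push p (a + b) = H75.push p a + H75.push p b := by
  classical
  have := Fintype.ofFinite G
  funext y
  rw [Pi.add_apply, H75.push_eq, H75.push_eq, H75.push_eq, ← Finset.sum_add_distrib]
  apply Finset.sum_congr rfl
  intro x _
  split_ifs
  · rfl
  · rw [add_zero]

theorem push_smul (p : G →* H) (c : F) (a : G → F) :
    H75.push p (c • a) = c • H75.push p a := by
  classical
  have := Fintype.ofFinite G
  funext y
  rw [Pi.smul_apply, H75.push_eq, H75.push_eq, Finset.smul_sum]
  apply Finset.sum_congr rfl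
  intro x _
  split_ifs
  · rfl
  · rw [smul_zero]

/-- the ring homomorphism of group rings -/
def pr (p : G →* H) : MonoidAlgebra F G →+* MonoidAlgebra F H where
  toFun x := ma (H75.push p (maL.symm x))
  map_one' := by
    have : maL.symm (1 : MonoidAlgebra F G) = dl F (1 : G) := by
      rw [← ma_one, ← maL_apply, LinearEquiv.symm_apply_apply]
    rw [this, push_dl, map_one, ma_one]
  map_mul' x y := by
    obtain ⟨a, rfl⟩ := ma_surjective x
    obtain ⟨b, rfl⟩ := ma_surjective y
    have hs : ∀ c : G → F, maL.symm (ma c) = c := fun c => maL.symm_apply_apply c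
    rw [← ma_mul, hs, hs, hs, H75.push_mulF, ma_mul]
  map_zero' := by
    rw [map_zero, H75.push_zero, ma_zero]
  map_add' x y := by
    rw [map_add, push_add, ma_add]

theorem pr_ma (p : G →* H) (a : G → F) : pr p (ma a) = ma (H75.push p a) := by
  change ma (H75.push p (maL.symm (maL a))) = _
  rw [LinearEquiv.symm_apply_apply]

theorem pr_smul (p : G →* H) (c : F) (x : MonoidAlgebra F G) : pr p (c • x) = c • pr p x := by
  obtain ⟨a, rfl⟩ := ma_surjective x
  rw [← ma_smul, pr_ma, pr_ma, push_smul, ma_smul]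

theorem pr_single (p : G →* H) (x : G) :
    pr p (MonoidAlgebra.single x (1 : F)) = MonoidAlgebra.single (p x) 1 := by
  rw [← ma_dl, pr_ma, push_dl, ma_dl]

theorem eq_sum [Fintype G] (a : G → F) :
    ma a = ∑ x, a x • (MonoidAlgebra.single x (1 : F)) := by
  classical
  have : a = ∑ x, a x • dl F x := by
    funext y
    rw [Finset.sum_apply, Finset.sum_eq_single y]
    · rw [Pi.smul_apply, dl, if_pos rfl, smul_eq_mul, mul_one]
    · intro b _ hb
      rw [Pi.smul_apply, dl, if_neg (fun h => hb h.symm), smul_zero]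
    · intro h
      exact absurd (Finset.mem_univ _) h
  conv_lhs => rw [this]
  rw [ma_sum]
  apply Finset.sum_congr rfl
  intro x _
  rw [ma_smul, ma_dl]

theorem pr_surj {p : G →* H} (hp : Function.Surjective p) :
    Function.Surjective (pr p : MonoidAlgebra F G →+* MonoidAlgebra F H) := by
  classical
  intro y
  have := Fintype.ofFinite H
  obtain ⟨b, rfl⟩ := ma_surjective y
  choose s hs using hp
  refine ⟨∑ h : H, b h • MonoidAlgebra.single (s h) (1 : F), ?_⟩
  rw [map_sum, eq_sum]
  apply Finset.sum_congr rfl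
  intro h _
  rw [pr_smul, pr_single, hs]

/-- the central element `y - 1` -/
def zz (F : Type) [Field F] (y : G) : MonoidAlgebra F G := MonoidAlgebra.single y 1 - 1

theorem zz_comm {y : G} (hy : y ∈ Subgroup.center G) (a : MonoidAlgebra F G) :
    zz F y * a = a * zz F y := by
  classical
  have := Fintype.ofFinite G
  obtain ⟨b, rfl⟩ := ma_surjective a
  rw [eq_sum, mul_sum, sum_mul]
  apply Finset.sum_congr rfl
  intro x _
  rw [mul_smul_comm, smul_mul_assoc, zz, sub_mul, mul_sub, one_mul, mul_one,
    MonoidAlgebra.single_mul_single, MonoidAlgebra.single_mul_single,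
    (Subgroup.mem_center_iff.1 hy x)]

theorem ker_pr {p : G →* H} (hp : Function.Surjective p) {y : G} (hy : y ∈ Subgroup.center G)
    (hk : p.ker = Subgroup.zpowers y) (a : MonoidAlgebra F G) (ha : pr p a = 0) :
    ∃ c, a = zz F y * c := by
  classical
  have := Fintype.ofFinite G
  have := Fintype.ofFinite H
  obtain ⟨b, rfl⟩ := ma_surjective a
  choose s hs using hp
  have h1 : ∀ x : G, ∃ c : MonoidAlgebra F G,
      MonoidAlgebra.single x (1 : F) - MonoidAlgebra.single (s (p x)) 1 = zz F y * c := by
    intro x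
    have h2 : (s (p x))⁻¹ * x ∈ p.ker := by
      rw [MonoidHom.mem_ker, map_mul, map_inv, hs, inv_mul_cancel]
    rw [hk, ← mem_powers_iff_mem_zpowers, Submonoid.mem_powers_iff] at h2
    obtain ⟨k, hk'⟩ := h2
    refine ⟨(∑ j ∈ range k, (MonoidAlgebra.single y (1 : F)) ^ j) *
      MonoidAlgebra.single (s (p x)) 1, ?_⟩
    rw [← mul_assoc, zz, mul_geom_sum, MonoidAlgebra.single_pow, one_pow, sub_mul, one_mul,
      MonoidAlgebra.single_mul_single, mul_one, hk']
    have h3 : (s (p x))⁻¹ * x * s (p x) = x := by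
      rw [← hk', ← Subgroup.mem_center_iff.1 (Subgroup.pow_mem _ hy k) (s (p x)), hk',
        mul_inv_cancel_left]
    rw [h3]
  choose c hc using h1
  refine ⟨∑ x, b x • c x, ?_⟩
  have h4 : ∑ x, b x • MonoidAlgebra.single (s (p x)) (1 : F) = (0 : MonoidAlgebra F G) := by
    have h5 : ∑ x, b x • MonoidAlgebra.single (s (p x)) (1 : F) =
        ∑ h, H75.push p b h • (MonoidAlgebra.single (s h) (1 : F) : MonoidAlgebra F G) := by
      have h6 : ∀ h : H, H75.push p b h • (MonoidAlgebra.single (s h) (1 : F) : MonoidAlgebra F G)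
          = ∑ x : G, if p x = h then b x • MonoidAlgebra.single (s h) (1 : F) else 0 := by
        intro h
        rw [H75.push_eq, Finset.sum_smul]
        apply Finset.sum_congr rfl
        intro x _
        split_ifs
        · rfl
        · rw [zero_smul]
      rw [Finset.sum_congr rfl (fun h _ => h6 h), Finset.sum_comm]
      apply Finset.sum_congr rfl
      intro x _
      rw [Finset.sum_ite_eq Finset.univ (p x), if_pos (Finset.mem_univ _)]
    rw [h5]
    rw [pr_ma] at ha
    have h7 : H75.push p b = 0 := ma_injective (by rw [ha, ma_zero])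
    apply Finset.sum_eq_zero
    intro h _
    rw [h7, Pi.zero_apply, zero_smul]
  rw [eq_sum, mul_sum]
  have h8 : ∀ x, zz F y * (b x • c x) = b x • MonoidAlgebra.single x (1 : F) -
      b x • MonoidAlgebra.single (s (p x)) (1 : F) := by
    intro x
    rw [mul_smul_comm, ← hc, smul_sub]
  rw [Finset.sum_congr rfl (fun x _ => h8 x), Finset.sum_sub_distrib, h4, sub_zero]

theorem zz_pow {ℓ : ℕ} [Fact ℓ.Prime] (hF : GoodF ℓ F) {y : G} (hy : orderOf y = ℓ) :
    (zz F y) ^ ℓ = 0 := by
  have := hF.char
  have h1 : CharP (MonoidAlgebra F G) ℓ :=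
    charP_of_injective_algebraMap (algebraMap F (MonoidAlgebra F G)).injective ℓ
  rw [zz, sub_pow_char_of_commute (p := ℓ) (Commute.one_right _), MonoidAlgebra.single_pow, one_pow,
    one_pow, ← hy, pow_orderOf_eq_one, ← MonoidAlgebra.one_def, sub_self]

end push

theorem lf1 : Lf1Stmt := by
  classical
  intro ℓ _ F _ hF G H _ _ _ _ p hp y hy hc hk e he w i' q h
  obtain ⟨he1, he2⟩ := he
  have hcent : ∀ {K : Type} [Group K] [Finite K] {a : K → F}, IsCl a →
      ∀ x : MonoidAlgebra F K, ma a * x = x * ma a := by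
    intro K _ _ a ha x
    have := (isCl_iff a).1 ha
    exact ((Subalgebra.mem_center_iff.1 this) x).symm
  have hw : IsCl w := fun x z => h.cw z (Subgroup.mem_top _) x
  obtain ⟨i, h1, h2, ⟨m, x, z, h3⟩, h4, t, h5⟩ := core (F := F) (pr p) (pr_smul p) (pr_surj hp)
    (zz_comm hc) (zz_pow hF hy) (ker_pr hp hc hk) (e := ma e) (by rw [← ma_mul, he2])
    (hcent he1) (w := ma w) (i' := ma i') (q := q) (by rw [← ma_mul, h.ii])
    (by rw [pr_ma, ← ma_mul, h.bi]) (hcent hw)
    (by
      intro b
      obtain ⟨a, rfl⟩ := ma_surjective b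
      obtain ⟨α, hα⟩ := h.loc a (fun x hx => absurd (Subgroup.mem_top x) hx)
      refine ⟨α, ?_⟩
      rw [← ma_mul, ← ma_mul, hα, ma_sum]
      apply Finset.sum_congr rfl
      intro s _
      rw [ma_smul, pwF, ma_iterate])
    (by
      obtain ⟨m, x, y, -, h6⟩ := h.full
      refine ⟨m, fun k => ma (x k), fun k => ma (y k), ?_⟩
      rw [pr_ma, ← h6, ma_sum]
      apply Finset.sum_congr rfl
      intro k _
      rw [ma_mul, ma_mul])
  obtain ⟨j, rfl⟩ := ma_surjective i
  choose X hX using fun k => ma_surjective (x k)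
  choose Z hZ using fun k => ma_surjective (z k)
  refine ⟨j, ma_injective (by rw [ma_mul, h1]), ma_injective (by rw [ma_mul, h2]),
    ⟨m, X, Z, ma_injective ?_⟩, ?_, ?_⟩
  · rw [ma_sum, ← h3]
    apply Finset.sum_congr rfl
    intro k _
    rw [ma_mul, ma_mul, hX, hZ]
  · intro a ha c hc'
    apply ma_injective
    rw [ma_mul, ma_mul]
    exact h4 _ _ (by rw [← ma_mul, ha.1]) (by rw [← ma_mul, ha.2]) (by rw [← ma_mul, hc'.1])
      (by rw [← ma_mul, hc'.2])
  · have h6 : Submodule.span F (crn j) ≤
        Submodule.span F (Set.range fun u => maL.symm (t u)) := by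
      rw [Submodule.span_le]
      intro a ha
      have h7 := h5 (ma a) (by rw [← ma_mul, ha.1]) (by rw [← ma_mul, ha.2])
      have h8 : a = maL.symm (ma a) := by rw [← maL_apply, LinearEquiv.symm_apply_apply]
      rw [SetLike.mem_coe, h8]
      have h9 : (Set.range fun u => maL.symm (t u)) =
          (maL.symm.toLinearMap : MonoidAlgebra F G →ₗ[F] (G → F)) '' Set.range t := by
        rw [← Set.range_comp]; rfl
      rw [h9, ← Submodule.map_span]
      exact ⟨ma a, h7, rfl⟩
    calc Module.finrank F (Submodule.span F (crn j)) ≤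
        Module.finrank F (Submodule.span F (Set.range fun u => maL.symm (t u))) :=
          Submodule.finrank_mono h6
      _ ≤ Fintype.card (Fin ℓ × Fin q) := finrank_range_le_card _
      _ = ℓ * q := by rw [Fintype.card_prod, Fintype.card_fin, Fintype.card_fin]

end Pool.Agent.PP.CD2.H51
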